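import Pool.Agent.Lib.MP_1a7d7d_co.Gap

/-!
# Finite inversive planes of odd order: common perpendiculars and tangency classes

`InvPlane n B`: `B` is the set of circles of a finite inversive plane of odd order `n`. `perp B` is the
relation `R` of the problem, `AxiomTwo B` the axiom (O2) for it, `TanClosed B R`: `R` is a set of
circles which contains every circle tangent to a member of `R`.
-/

set_option autoImplicit false

namespace Pool.Agent.Results.MP_1a7d7d_co.CommonPerpendiculars

open Pool.Agent.Lib.MP_1a7d7d_co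

universe u

/-- the circles through `p` and `q` which meet `Y` and are perpendicular to `Y` -/
def common {P : Type u} [DecidableEq P] (B : Finset (Finset P)) (Y : Finset P) (p q : P) :
    Set (Finset P) :=
  {D | D ∈ B ∧ p ∈ D ∧ q ∈ D ∧ (D ∩ Y).Nonempty ∧ perp B D Y}

/-- the theorem -/
theorem result {P : Type u} [Fintype P] [DecidableEq P] (n : ℕ) (B : Finset (Finset P))
    (h : InvPlane n B) :
    (∀ R : Finset (Finset P), TanClosed B R → R.Nonempty →
      (R ≠ B → ∀ p q : P, p ≠ q → 2 * (R.filter (fun D => p ∈ D ∧ q ∈ D)).card = n + 1) ∧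
      (∀ R' : Finset (Finset P), TanClosed B R' → R'.Nonempty → Disjoint R R' → R ∪ R' = B)) ∧
    (AxiomTwo B →
      (∀ C ∈ B, ∀ z : P, z ∉ C → 2 * (common B C z z).ncard = n + 1) ∧
      (∀ C ∈ B, ∀ z : P, z ∉ C → ∀ D ∈ common B C z z, ∀ D' ∈ common B C z z, D ≠ D' →
        (D ∩ D').card = 2) ∧
      (∀ C ∈ B, ∀ D ∈ B, ∀ X ∈ B, ∀ z ∈ X, C ∩ D = {z} → perp B X C → perp B X D) ∧
      (∀ R : Finset (Finset P), TanClosed B R → R.Nonempty → R ≠ B →
        ∀ Y ∈ B, ∀ p q : P, p ≠ q → p ∉ Y → q ∉ Y →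
          2 * (common B Y p q).ncard = n + 1 ∨ 4 * (common B Y p q).ncard + 1 ≤ n)) := by
  have hO : AxiomTwo B → LociAreCircles B := fun hO => h.loci_of_hasPerp (h.hasPerp_of_axiomTwo hO)
  refine ⟨?_, ?_⟩
  · intro R hR hne
    refine ⟨?_, ?_⟩
    · intro hRB p q hpq
      have h1 := h.class_card hR hne hRB hpq
      have h2 : (thr B p q).filter (fun D => D ∈ R) = R.filter (fun D => p ∈ D ∧ q ∈ D) := by
        ext D
        simp only [thr, Finset.mem_filter]
        constructor
        · rintro ⟨⟨_, h3⟩, h4⟩; exact ⟨h4, h3⟩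
        · rintro ⟨h3, h4⟩; exact ⟨⟨hR.1 h3, h4⟩, h3⟩
      rw [h2] at h1
      exact h1
    · intro R' hR' hne' hdis
      exact h.union_eq hR hne hR' hne' hdis
  · intro hA
    have hL := hO hA
    refine ⟨?_, ?_, ?_, ?_⟩
    · intro C hC z hz
      have h1 := h.perp_count hA hC hz
      have h2 : common B C z z
          = {D : Finset P | D ∈ B ∧ z ∈ D ∧ (D ∩ C).Nonempty ∧ perp B D C} := by
        ext D
        constructor
        · rintro ⟨e1, e2, _, e3, e4⟩; exact ⟨e1, e2, e3, e4⟩
        · rintro ⟨e1, e2, e3, e4⟩; exact ⟨e1, e2, e2, e3, e4⟩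
      rw [h2]
      exact h1
    · rintro C hC z hz D ⟨hD, hzD, _, hDC, h1⟩ D' ⟨hD', hzD', _, hDC', h2⟩ hne
      exact h.two_meet hL hC hD hD' hz hne hzD hzD' hDC hDC' h1 h2
    · intro C hC D hD X hX z hz hCD hXC
      exact h.perp_tangent hL hC hD hX hCD hz hXC
    · intro R hR hne hRB Y hY p q hpq hp hq
      exact h.gap hL hR hne hRB hY hpq hp hq

end Pool.Agent.Results.MP_1a7d7d_co.CommonPerpendiculars
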