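import Pool.Agent.Lib.MP_1a7d7d_co.Pairs

/-!
# Finite inversive planes of odd order: perpendicular circles and tangency classes

`InvPlane n B`: `B` is the set of circles of a finite inversive plane of odd order `n`. `perp B` is the
relation `R` of the problem, `AxiomTwo B` the axiom (O2) for it, `TanClosed B S`: `S` is a set of
circles which contains every circle tangent to a member of `S`.
-/

set_option autoImplicit false

namespace Pool.Agent.Results.MP_1a7d7d_co.PerpendicularClasses

open Pool.Agent.Lib.MP_1a7d7d_co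

universe u

/-- the circles which meet `C` and `D` and are perpendicular to both -/
def perps {P : Type u} [DecidableEq P] (B : Finset (Finset P)) (C D : Finset P) :
    Set (Finset P) :=
  {X | X ∈ B ∧ (X ∩ C).Nonempty ∧ (X ∩ D).Nonempty ∧ perp B X C ∧ perp B X D}

/-- the theorem -/
theorem result {P : Type u} [Fintype P] [DecidableEq P] (n : ℕ) (B : Finset (Finset P))
    (h : InvPlane n B) (hO : AxiomTwo B) (S : Finset (Finset P)) (hS : TanClosed B S)
    (hne : S.Nonempty) (hSB : S ≠ B) :
    (n % 4 = 3 ∧ ∀ C ∈ B, ∀ D ∈ B, (C ∩ D).Nonempty → perp B C D →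
      (C ∈ S ↔ D ∈ S) ∧ 2 * (perps B C D).ncard + 1 = n) ∨
    (∀ C ∈ B, ∀ D ∈ B, (C ∩ D).Nonempty → perp B C D →
      ¬ (C ∈ S ↔ D ∈ S) ∧ perps B C D = ∅) := by
  classical
  have hL := h.loci_of_hasPerp (h.hasPerp_of_axiomTwo hO)
  have hp : ∀ C D : Finset P, perps B C D = (perpF B C D : Set (Finset P)) := by
    intro C D
    ext X
    rw [Finset.mem_coe, mem_perpF]
    rfl
  rcases h.perp_class hL hS hne hSB with hsame | hdiff
  · left
    refine ⟨?_, ?_⟩
    · have h1 := h.even_of_same hL hS hne hSB hsame
      rcases h.odd with ⟨k, hk⟩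
      omega
    · intro C hC D hD hCD hperp
      have hcl := hsame C hC D hD hCD hperp
      refine ⟨hcl, ?_⟩
      have h2 := h.perp_card hCD hperp
      have hCne : C ≠ D := hperp.1
      have h4 := h.tans_eq_perp hL hC hD hCne (by omega)
      have h3 : (tans B C D).card + 2 * (C ∩ D).card = 2 * (n + 1) := by
        by_cases hCS : C ∈ S
        · exact h.tans_card hS hSB hCS (hcl.1 hCS) hCne (by omega)
        · have hDS : D ∉ S := fun e => hCS (hcl.2 e)
          have hSB' : B \ S ≠ B := by
            intro e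
            obtain ⟨E, hE⟩ := hne
            have h1 : E ∈ B \ S := by rw [e]; exact hS.1 hE
            exact (Finset.mem_sdiff.1 h1).2 hE
          exact h.tans_card hS.compl hSB' (Finset.mem_sdiff.2 ⟨hC, hCS⟩)
            (Finset.mem_sdiff.2 ⟨hD, hDS⟩) hCne (by omega)
      rw [hp, Set.ncard_coe_finset]
      omega
  · right
    intro C hC D hD hCD hperp
    refine ⟨hdiff C hC D hD hCD hperp, ?_⟩
    rw [Set.eq_empty_iff_forall_notMem]
    rintro X ⟨hX, hXC, hXD, h1, h2⟩
    have e1 := hdiff C hC D hD hCD hperp
    have e2 := hdiff X hX C hC hXC h1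
    have e3 := hdiff X hX D hD hXD h2
    tauto

end Pool.Agent.Results.MP_1a7d7d_co.PerpendicularClasses
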