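import Pool.Agent.Lib.MP_1a7d7d_co.Mixed

/-!
# Finite inversive planes of odd order: the second axiom of orthogonality and tangency loci

`InvPlane n B`: `B` is the set of circles of a finite inversive plane of odd order `n`. `perp B` is the
relation `R` of the problem (`perp2 B` is rule (i)); `locus B C p q` is the set of `p`, `q` and of all
points `x` off `C` for which the circles through `x` tangent to `C` at `p` and at `q` are tangent to
each other. The definitions are in `Pool.Agent.Lib.MP_1a7d7d_co.Defs`.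
-/

set_option autoImplicit false

namespace Pool.Agent.Results.MP_1a7d7d_co.SecondAxiom

open Pool.Agent.Lib.MP_1a7d7d_co

universe u

/-- the theorem -/
theorem result {P : Type u} [Fintype P] [DecidableEq P] (n : ℕ) (B : Finset (Finset P))
    (h : InvPlane n B) :
    (∀ C ∈ B, ∀ p ∈ C, ∀ q ∈ C, q ≠ p → (locus B C p q).card = n + 1) ∧
    (∀ C ∈ B, ∀ D ∈ B, perp2 B C D ↔ ∃ p ∈ C, ∃ q ∈ C, p ≠ q ∧ D = locus B C p q) ∧
    (∀ C ∈ B, ∀ p ∈ C, ∀ q : P, q ≠ p → ∀ D ∈ B, ∀ D' ∈ B, p ∈ D → q ∈ D → p ∈ D' → q ∈ D' →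
      perp B C D → perp B C D' → D = D') ∧
    (AxiomTwo B ↔ LociAreCircles B) ∧ (AxiomTwo B ↔ HasPerp B) ∧
    (AxiomTwo B →
      (∀ C ∈ B, ∀ p ∈ C, ∀ q ∈ C, q ≠ p → locus B (locus B C p q) p q = C) ∧
      (∀ C ∈ B, ∀ D ∈ B, (C ∩ D).Nonempty → perp B C D → perp B D C)) ∧
    (IsOrthogonality B ↔ LociAreCircles B ∧ BundleMixed B) := by
  have hO : AxiomTwo B ↔ LociAreCircles B :=
    ⟨fun hO => h.loci_of_hasPerp (h.hasPerp_of_axiomTwo hO), h.axiomTwo_of_loci⟩
  refine ⟨?_, ?_, ?_, hO, ?_, ?_, ?_⟩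
  · intro C hC p hp q hq hqp
    exact h.locus_card hC hp hq hqp.symm
  · intro C hC D hD
    exact h.perp2_iff_locus hC hD
  · intro C hC p hp q hqp D hD D' hD' hpD hqD hpD' hqD' h1 h2
    exact h.perp_unique hC hD hD' hp hqp hpD hqD hpD' hqD' h1 h2
  · exact ⟨h.hasPerp_of_axiomTwo, fun hE => h.axiomTwo_of_loci (h.loci_of_hasPerp hE)⟩
  · intro hA
    have hL := hO.1 hA
    refine ⟨?_, ?_⟩
    · intro C hC p hp q hq hqp
      exact h.locus_locus hL hC hp hq hqp
    · intro C hC D hD hne hCD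
      exact h.perp_symm hL hC hD hne hCD
  · constructor
    · rintro ⟨_, h2, h3⟩
      refine ⟨hO.1 h2, ?_⟩
      intro p q hpq A hA A' hA' C hC he he' hpA hqA hpA' hqA'
      have hne : A ≠ A' := by
        rintro rfl
        rw [he] at he'
        exact Finset.not_nonempty_empty he'
      exact h3 p q hpq A hA A' hA' C hC hne hpA hqA hpA' hqA'
    · rintro ⟨hL, hM⟩
      exact h.isOrthogonality_of hL hM

end Pool.Agent.Results.MP_1a7d7d_co.SecondAxiom
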