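import Pool.Agent.Lib.MP_1a7d7d_co.Pairs

/-!
# Finite inversive planes of odd order: common perpendiculars of two circles

`InvPlane n B`: `B` is the set of circles of a finite inversive plane of odd order `n`. `perp B` is the
relation `R` of the problem, `AxiomTwo B` the axiom (O2) for it, `TanClosed B S`: `S` is a set of
circles which contains every circle tangent to a member of `S`.
-/

set_option autoImplicit false

namespace Pool.Agent.Results.MP_1a7d7d_co.TwoCircles

open Pool.Agent.Lib.MP_1a7d7d_co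

universe u

/-- the circles tangent to `C` and to `D` -/
def touching {P : Type u} [DecidableEq P] (B : Finset (Finset P)) (C D : Finset P) :
    Set (Finset P) :=
  {E | E ∈ B ∧ (E ∩ C).card = 1 ∧ (E ∩ D).card = 1}

/-- the circles which meet `C` and `D` and are perpendicular to both -/
def perps {P : Type u} [DecidableEq P] (B : Finset (Finset P)) (C D : Finset P) :
    Set (Finset P) :=
  {X | X ∈ B ∧ (X ∩ C).Nonempty ∧ (X ∩ D).Nonempty ∧ perp B X C ∧ perp B X D}

/-- the theorem -/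
theorem result {P : Type u} [Fintype P] [DecidableEq P] (n : ℕ) (B : Finset (Finset P))
    (h : InvPlane n B) :
    (∀ C ∈ B, ∀ D ∈ B, (C ∩ D).card = 1 → (touching B C D).ncard + 2 = 2 * n) ∧
    (∀ S : Finset (Finset P), TanClosed B S → S.Nonempty → S ≠ B →
      ∀ C ∈ B, ∀ D ∈ B, C ≠ D → (C ∩ D).card ≠ 1 →
        ((C ∈ S ↔ D ∈ S) → (touching B C D).ncard + 2 * (C ∩ D).card = 2 * (n + 1)) ∧
        (¬ (C ∈ S ↔ D ∈ S) → touching B C D = ∅)) ∧
    (AxiomTwo B →
      (∀ C ∈ B, ∀ D ∈ B, ∀ z : P, C ∩ D = {z} →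
        (perps B C D).ncard = n ∧ ∀ X ∈ perps B C D, z ∈ X) ∧
      (∀ C ∈ B, ∀ D ∈ B, C ≠ D → (C ∩ D).card ≠ 1 →
        (touching B C D).ncard = 4 * (perps B C D).ncard ∧
        (∀ X ∈ perps B C D, ∀ Y ∈ perps B C D, X ≠ Y → X ∩ Y ∩ C = ∅) ∧
        (∀ E ∈ B, ∀ u v : P, E ∩ C = {u} → E ∩ D = {v} →
          ∃! X, X ∈ perps B C D ∧ u ∈ X ∧ v ∈ X)) ∧
      (∀ S : Finset (Finset P), TanClosed B S → S.Nonempty → S ≠ B →
        ∀ C ∈ B, ∀ D ∈ B, C ≠ D → (C ∩ D).card ≠ 1 →
          ((C ∈ S ↔ D ∈ S) → 2 * (perps B C D).ncard + (C ∩ D).card = n + 1) ∧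
          (¬ (C ∈ S ↔ D ∈ S) → perps B C D = ∅))) := by
  classical
  have ht : ∀ C D : Finset P, touching B C D = (tans B C D : Set (Finset P)) := by
    intro C D
    ext E
    simp only [touching, tans, Set.mem_ofPred_eq, Finset.coe_filter]
  have hp : ∀ C D : Finset P, perps B C D = (perpF B C D : Set (Finset P)) := by
    intro C D
    ext X
    rw [Finset.mem_coe, mem_perpF]
    rfl
  have hclass : ∀ S : Finset (Finset P), TanClosed B S → S.Nonempty → S ≠ B →
      ∀ C ∈ B, ∀ D ∈ B, C ≠ D → (C ∩ D).card ≠ 1 →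
        ((C ∈ S ↔ D ∈ S) → (touching B C D).ncard + 2 * (C ∩ D).card = 2 * (n + 1)) ∧
        (¬ (C ∈ S ↔ D ∈ S) → touching B C D = ∅) := by
    intro S hS hne hSB C hC D hD hCD hcard
    refine ⟨?_, ?_⟩
    · intro hiff
      rw [ht, Set.ncard_coe_finset]
      by_cases hCS : C ∈ S
      · exact h.tans_card hS hSB hCS (hiff.1 hCS) hCD hcard
      · have hDS : D ∉ S := fun e => hCS (hiff.2 e)
        have hSB' : B \ S ≠ B := by
          intro e
          obtain ⟨E, hE⟩ := hne
          have h1 : E ∈ B \ S := by rw [e]; exact hS.1 hE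
          exact (Finset.mem_sdiff.1 h1).2 hE
        exact h.tans_card hS.compl hSB' (Finset.mem_sdiff.2 ⟨hC, hCS⟩)
          (Finset.mem_sdiff.2 ⟨hD, hDS⟩) hCD hcard
    · intro hiff
      rw [Set.eq_empty_iff_forall_notMem]
      rintro E ⟨hE, h1, h2⟩
      apply hiff
      have e1 : ∀ F ∈ B, (E ∩ F).card = 1 → (E ∈ S ↔ F ∈ S) := by
        intro F hF hEF
        exact ⟨fun e => hS.2 E e F hF hEF, fun e => hS.2 F e E hE (by rw [Finset.inter_comm]; exact hEF)⟩
      exact (e1 C hC h1).symm.trans (e1 D hD h2)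
  refine ⟨?_, hclass, ?_⟩
  · intro C hC D hD hcard
    rw [ht, Set.ncard_coe_finset]
    exact h.tans_card_tangent hC hD hcard
  · intro hO
    have hL := h.loci_of_hasPerp (h.hasPerp_of_axiomTwo hO)
    have hfour : ∀ C ∈ B, ∀ D ∈ B, C ≠ D → (C ∩ D).card ≠ 1 →
        (touching B C D).ncard = 4 * (perps B C D).ncard := by
      intro C hC D hD hne hcard
      rw [ht, hp, Set.ncard_coe_finset, Set.ncard_coe_finset]
      exact h.tans_eq_perp hL hC hD hne hcard
    refine ⟨?_, ?_, ?_⟩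
    · intro C hC D hD z hz
      rw [hp, Set.ncard_coe_finset]
      exact ⟨h.perpF_card_tangent hL hC hD hz, fun X hX =>
        h.perp_contact hL hC hD hz (Finset.mem_coe.1 hX)⟩
    · intro C hC D hD hne hcard
      refine ⟨hfour C hC D hD hne hcard, ?_, ?_⟩
      · intro X hX Y hY hXY
        rw [hp, Finset.mem_coe] at hX hY
        rw [Finset.eq_empty_iff_forall_notMem]
        intro x hx
        obtain ⟨hx1, hxC⟩ := Finset.mem_inter.1 hx
        obtain ⟨hxX, hxY⟩ := Finset.mem_inter.1 hx1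
        exact hXY (h.perpF_unique hL hC hD hne hcard hX hY hxX hxY hxC)
      · intro E hE u v hEC hED
        obtain ⟨X, ⟨h1, h2, h3⟩, hu⟩ := h.perp_of_tan hL hC hD hne hcard hE hEC hED
        refine ⟨X, ⟨by rw [hp]; exact Finset.mem_coe.2 h1, h2, h3⟩, ?_⟩
        rintro Y ⟨hY, hY2, hY3⟩
        rw [hp, Finset.mem_coe] at hY
        exact hu Y ⟨hY, hY2, hY3⟩
    · intro S hS hne hSB C hC D hD hCD hcard
      obtain ⟨h1, h2⟩ := hclass S hS hne hSB C hC D hD hCD hcard
      have h3 := hfour C hC D hD hCD hcard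
      refine ⟨?_, ?_⟩
      · intro hiff
        have h4 := h1 hiff
        omega
      · intro hiff
        rw [h2 hiff, Set.ncard_empty] at h3
        rw [hp] at h3 ⊢
        rw [Set.ncard_coe_finset] at h3
        have h5 : perpF B C D = ∅ := by rw [← Finset.card_eq_zero]; omega
        rw [h5, Finset.coe_empty]

end Pool.Agent.Results.MP_1a7d7d_co.TwoCircles
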